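import Mathlib
import Pool.Agent.H82.CO.Sq

set_option autoImplicit false

/-!
PROJECT GQ (MP_bf82d2_ag, GenusOneQuotient, note 5983).  Definitions.
-/

namespace Pool.Agent.H11.GQ

open Finset Pool.Agent.H82.CO

variable {G : Type} [Group G] {N : ℕ}

open Classical in
/-- the number of the `x` with `x ^ 2` in `c K` -/
noncomputable def rk [Fintype G] (K : Subgroup G) (c : G) : ℝ := ∑ x : G, if (x ^ 2)⁻¹ * c ∈ K then 1 else 0

/-- the sum of the `1 - 1 / k_i`, `k_i` the order of `s i` modulo `K` -/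
noncomputable def nuK (s : Fin N → G) (K : Subgroup G) [K.Normal] : ℝ :=
  ∑ i, (1 - 1 / (orderOf (QuotientGroup.mk (s i) : G ⧸ K) : ℝ))

/-- the bound for the growth -/
def beta (e : ℕ) : ℕ := (e + 1) ^ (e * (2 * e))

end Pool.Agent.H11.GQ
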