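import Pool.Agent.H11.GQ.Defs
import Pool.Agent.H82.CO.Fix
import Pool.Agent.H82.CO.FS
import Pool.Agent.H82.CO.Main

set_option autoImplicit false

/-!
PROJECT GQ (MP_bf82d2_ag), module Wgt.
The sum of `w(g) re (chi s g)` for a class function `w` (as in Pool/Agent/H82/SQ/FS.lean), and simple properties of `rk`.
-/

namespace Pool.Agent.H11.GQ

open Finset Pool.Agent.H82.CO

variable {G : Type} [Group G] [Fintype G] {N : ℕ}

private theorem sum_w_fP (w : G → ℝ) (c : G) :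
    ∑ h : G, w h * fP c h = ∑ k ∈ Ico 1 (orderOf c), w (c ^ k) := by
  classical
  have hm := orderOf_pos c
  have h1 : ∀ h : G, w h * fP c h =
      ∑ k ∈ range (orderOf c), if c ^ k = h ∧ k ≠ 0 then w h else 0 := by
    intro h
    rw [fP, mul_sum]
    refine sum_congr rfl fun k _ => ?_
    split_ifs <;> simp
  rw [sum_congr rfl fun h _ => h1 h, sum_comm]
  have h2 : ∀ k, (∑ h : G, if c ^ k = h ∧ k ≠ 0 then w h else 0) =
      if k ≠ 0 then w (c ^ k) else 0 := by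
    intro k
    by_cases hk : k = 0
    · simp [hk]
    · simp [hk]
  rw [sum_congr rfl fun k _ => h2 k, ← sum_filter]
  refine sum_congr ?_ fun _ _ => rfl
  ext k
  simp only [mem_filter, mem_range, mem_Ico]
  omega

private theorem sum_w_indF (w : G → ℝ) (hw : ∀ x g, w (x * g * x⁻¹) = w g) (c : G) :
    ∑ g : G, w g * indF c g =
    Nat.card G * ((1 / (orderOf c : ℝ)) * ∑ k ∈ Ico 1 (orderOf c), w (c ^ k)) := by
  have h1 : ∀ g : G, w g * indF c g =
      (1 / (orderOf c : ℝ)) * ∑ x : G, w (x⁻¹ * g * x) * fP c (x⁻¹ * g * x) := by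
    intro g
    rw [indF, mul_left_comm, mul_sum]
    congr 1
    refine sum_congr rfl fun x _ => ?_
    have := hw x⁻¹ g
    rw [inv_inv] at this
    rw [this]
  rw [sum_congr rfl fun g _ => h1 g, ← mul_sum, sum_comm]
  have h3 : ∀ x : G, ∑ g : G, w (x⁻¹ * g * x) * fP c (x⁻¹ * g * x) = ∑ h : G, w h * fP c h := by
    intro x
    exact Fintype.sum_equiv (MulAut.conj x⁻¹).toEquiv _ _ fun g => by simp
  rw [sum_congr rfl fun x _ => h3 x, sum_const, card_univ, nsmul_eq_mul, sum_w_fP,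
    ← Nat.card_eq_fintype_card]
  ring

theorem sum_w_chi (s : Fin N → G) (w : G → ℝ) (hw : ∀ x g, w (x * g * x⁻¹) = w g) :
    ∑ g, w g * (chi s g).re = w 1 * (genus s - 1) + ∑ g, w g -
      (Nat.card G : ℝ) / 2 * ∑ i, (1 / (orderOf (s i) : ℝ)) * ∑ k ∈ Ico 1 (orderOf (s i)), w (s i ^ k) := by
  classical
  have h1 : ∀ g : G, w g * (chi s g).re =
      (if g = 1 then w 1 * (genus s - 1) else 0) + w g -
        (∑ i, w g * indF (s i) g) / 2 := by
    intro g
    by_cases hg : g = 1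
    · subst hg
      rw [chi_one, Complex.ofReal_re, if_pos rfl]
      simp only [indF_one]
      simp
      ring
    · rw [if_neg hg, chi_re s hg, ← mul_sum]
      ring
  rw [sum_congr rfl fun g _ => h1 g, sum_sub_distrib, sum_add_distrib, sum_ite_eq',
    if_pos (mem_univ _), ← sum_div, sum_comm,
    sum_congr rfl fun i _ => sum_w_indF w hw (s i), ← mul_sum]
  ring

theorem rk_nonneg (K : Subgroup G) (c : G) : 0 ≤ rk K c := by
  unfold rk
  exact sum_nonneg fun x _ => by split_ifs <;> norm_num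

theorem rk_le (K : Subgroup G) (c : G) : rk K c ≤ Nat.card G := by
  unfold rk
  have h : ∀ x ∈ (univ : Finset G), (@ite ℝ ((x ^ 2)⁻¹ * c ∈ K) (Classical.propDecidable _) 1 0) ≤ (1 : ℝ) := by
    intro x _
    split_ifs <;> norm_num
  refine (sum_le_sum h).trans (le_of_eq ?_)
  rw [sum_const, card_univ, nsmul_eq_mul, mul_one, Nat.card_eq_fintype_card]

theorem rk_conj (K : Subgroup G) [K.Normal] (x c : G) : rk K (x * c * x⁻¹) = rk K c := by
  unfold rk
  refine Fintype.sum_equiv (MulAut.conj x⁻¹).toEquiv _ _ fun u => ?_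
  have h1 : (u ^ 2)⁻¹ * (x * c * x⁻¹) ∈ K ↔ ((((MulAut.conj x⁻¹).toEquiv u) ^ 2)⁻¹ * c) ∈ K := by
    have h2 : (MulAut.conj x⁻¹).toEquiv u = x⁻¹ * u * x := by
      simp
    have h3 : ((x⁻¹ * u * x) ^ 2)⁻¹ * c = x⁻¹ * ((u ^ 2)⁻¹ * (x * c * x⁻¹)) * x⁻¹⁻¹ := by
      rw [sq, sq]; group
    rw [h2, h3]
    constructor
    · intro h
      exact ‹K.Normal›.conj_mem _ h x⁻¹
    · intro h
      have h4 := ‹K.Normal›.conj_mem _ h x
      have h5 : x * (x⁻¹ * ((u ^ 2)⁻¹ * (x * c * x⁻¹)) * x⁻¹⁻¹) * x⁻¹ = (u ^ 2)⁻¹ * (x * c * x⁻¹) := by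
        group
      rwa [h5] at h4
  by_cases h : (u ^ 2)⁻¹ * (x * c * x⁻¹) ∈ K
  · rw [if_pos h, if_pos (h1.1 h)]
  · rw [if_neg h, if_neg (fun h2 => h (h1.2 h2))]

theorem rk_of_mem (K : Subgroup G) {c : G} (hc : c ∈ K) : rk K c = rk K 1 := by
  unfold rk
  refine sum_congr rfl fun x _ => ?_
  have h1 : (x ^ 2)⁻¹ * c ∈ K ↔ (x ^ 2)⁻¹ * 1 ∈ K := by
    rw [mul_one]
    exact K.mul_mem_cancel_right hc
  by_cases h : (x ^ 2)⁻¹ * c ∈ K
  · rw [if_pos h, if_pos (h1.1 h)]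
  · rw [if_neg h, if_neg (fun h2 => h (h1.2 h2))]

theorem sum_rk (K : Subgroup G) : ∑ c, rk K c = (Nat.card G : ℝ) * Nat.card K := by
  classical
  unfold rk
  rw [sum_comm]
  have h1 : ∀ x : G, ∑ c : G, (@ite ℝ ((x ^ 2)⁻¹ * c ∈ K) (Classical.propDecidable _) 1 0) = (Nat.card K : ℝ) := by
    intro x
    have h2 : ∑ c : G, (@ite ℝ ((x ^ 2)⁻¹ * c ∈ K) (Classical.propDecidable _) 1 0) =
        ∑ c : G, (@ite ℝ (c ∈ K) (Classical.propDecidable _) 1 0) :=
      Fintype.sum_equiv (Equiv.mulLeft (x ^ 2)⁻¹) _ _ fun c => rfl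
    rw [h2, sum_boole, Nat.card_eq_fintype_card]
    norm_cast
    exact (Fintype.card_subtype _).symm
  rw [sum_congr rfl fun x _ => h1 x, sum_const, card_univ, nsmul_eq_mul, ← Nat.card_eq_fintype_card]

/-- more square roots of `c` than elements with square in `c K` is impossible -/
theorem rt_le_rk (K : Subgroup G) (c : G) : rt c ≤ rk K c := by
  classical
  unfold rk rt
  refine sum_le_sum fun x _ => ?_
  by_cases h : x ^ 2 = c
  · have h1 : (x ^ 2)⁻¹ * c ∈ K := by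
      rw [h, inv_mul_cancel]
      exact K.one_mem
    rw [if_pos h, if_pos h1]
  · rw [if_neg h]
    split_ifs <;> norm_num

end Pool.Agent.H11.GQ
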