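import Pool.Agent.H11.GQ.Trf
import Pool.Agent.H11.GQ.Wgt
import Pool.Agent.H52.VC.Qin
import Pool.Agent.H52.VC.Fex
import Pool.Agent.H52.VC.Hom

set_option autoImplicit false

/-!
PROJECT GQ (MP_bf82d2_ag), module Fix.
PROOF. `F = fixG σ K`, `ρ = subR σ F (inv_fixG σ K)`, `f` its character. `symInv_le` (module Fex) for the inclusion `F → E`:
`finrank (symInv ρ) ≤ finrank (symInv σ)`. `symInv_eq` (Qin): `2 n finrank (symInv ρ) = ∑ f(g) ^ 2 + ∑ f(g ^ 2)`.
`∑ f(g) ^ 2 = n finrank (invHom ρ.dual ρ)` by `hom_eq` (Hom) and `Representation.char_dual` (`trace (ρ.dual g⁻¹) = trace (ρ g)`), so it is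
a real number `≥ 0`.  `∑_g f(g ^ 2) = (1 / |K|) ∑_g ∑_{k ∈ K} trace (σ (g ^ 2 k))` (`trace_fix`) `= (1 / |K|) ∑_y rk K y * trace (σ y)`
(substitute `y = g ^ 2 * k`, exchange the sums).  Take real parts.
-/

namespace Pool.Agent.H11.GQ

open Finset Module
open Pool.Agent.H93.Hup (Inv MinInv)
open Pool.Agent.H52.VC

variable {G : Type} [Group G] [Fintype G] {E : Type} [AddCommGroup E] [Module ℂ E] [FiniteDimensional ℂ E]

theorem fix_le (σ : Representation ℂ G E) (K : Subgroup G) [K.Normal] :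
    ∑ y, rk K y * (LinearMap.trace ℂ E (σ y)).re ≤
      2 * ((Nat.card G : ℝ) * Nat.card K) * finrank ℂ (symInv σ) := by
  classical
  obtain ⟨ρ, hρ⟩ : ∃ ρ : Representation ℂ G (fixG σ K), ρ = subR σ (fixG σ K) (inv_fixG σ K) :=
    ⟨_, rfl⟩
  have hn0 : (Nat.card G : ℂ) ≠ 0 := Nat.cast_ne_zero.2 Nat.card_pos.ne'
  have hk0 : (Nat.card K : ℂ) ≠ 0 := Nat.cast_ne_zero.2 Nat.card_pos.ne'
  -- the invariant forms extend
  have h1 : finrank ℂ (symInv ρ) ≤ finrank ℂ (symInv σ) := by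
    refine symInv_le ρ σ (fixG σ K).subtype ?_ (Submodule.injective_subtype _)
    rw [mem_invHom]
    intro g x
    rw [hρ]
    rfl
  -- the sum of the squares
  have h2 : ∑ g, LinearMap.trace ℂ (fixG σ K) (ρ g) ^ 2
      = (Nat.card G : ℂ) * finrank ℂ (invHom ρ.dual ρ) := by
    have h3 := hom_eq ρ.dual ρ
    have h4 : ∀ g : G, LinearMap.trace ℂ (Dual ℂ (fixG σ K)) (ρ.dual g⁻¹)
        = LinearMap.trace ℂ (fixG σ K) (ρ g) := by
      intro g
      have h5 := Representation.char_dual ρ g⁻¹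
      rw [inv_inv] at h5
      exact h5
    have h6 : ∀ g ∈ (univ : Finset G), LinearMap.trace ℂ (fixG σ K) (ρ g)
        * LinearMap.trace ℂ (Dual ℂ (fixG σ K)) (ρ.dual g⁻¹)
        = LinearMap.trace ℂ (fixG σ K) (ρ g) ^ 2 := by
      intro g _
      rw [h4 g, pow_two]
    rw [Finset.sum_congr rfl h6] at h3
    rw [h3, ← mul_assoc, mul_one_div_cancel hn0, one_mul]
  -- the sum of the values at the squares
  have h7 : ∑ g, LinearMap.trace ℂ (fixG σ K) (ρ (g ^ 2))
      = (1 / (Nat.card K : ℂ)) * ∑ y, (rk K y : ℂ) * LinearMap.trace ℂ E (σ y) := by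
    have h8 : ∀ g ∈ (univ : Finset G), LinearMap.trace ℂ (fixG σ K) (ρ (g ^ 2))
        = (1 / (Nat.card K : ℂ)) *
          ∑ y : G, if (g ^ 2)⁻¹ * y ∈ K then LinearMap.trace ℂ E (σ y) else 0 := by
      intro g _
      rw [hρ, trace_fix σ K (g ^ 2)]
      congr 1
      rw [← Equiv.sum_comp (Equiv.mulLeft (g ^ 2))
        (fun y : G => if (g ^ 2)⁻¹ * y ∈ K then LinearMap.trace ℂ E (σ y) else 0)]
      refine Finset.sum_congr rfl fun k _ => ?_
      rw [Equiv.coe_mulLeft]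
      simp only [inv_mul_cancel_left]
    rw [Finset.sum_congr rfl h8, ← Finset.mul_sum, Finset.sum_comm]
    congr 1
    refine Finset.sum_congr rfl fun y _ => ?_
    rw [rk]
    push_cast
    rw [Finset.sum_mul]
    refine Finset.sum_congr rfl fun g _ => ?_
    split_ifs
    · rw [Complex.ofReal_one, one_mul]
    · rw [Complex.ofReal_zero, zero_mul]
  have h9 := symInv_eq ρ
  rw [Finset.sum_add_distrib, h2, h7] at h9
  have h10 : ∑ y, (rk K y : ℂ) * LinearMap.trace ℂ E (σ y)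
      = 2 * ((Nat.card G : ℂ) * Nat.card K) * finrank ℂ (symInv ρ)
        - (Nat.card G : ℂ) * Nat.card K * finrank ℂ (invHom ρ.dual ρ) := by
    rw [h9]
    field_simp
    ring
  have h11 := congrArg Complex.re h10
  have h12 : (∑ y, (rk K y : ℂ) * LinearMap.trace ℂ E (σ y)).re
      = ∑ y, rk K y * (LinearMap.trace ℂ E (σ y)).re := by
    rw [Complex.re_sum]
    refine Finset.sum_congr rfl fun y _ => ?_
    rw [Complex.re_ofReal_mul]
  have h13 : (2 * ((Nat.card G : ℂ) * Nat.card K) * finrank ℂ (symInv ρ)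
        - (Nat.card G : ℂ) * Nat.card K * finrank ℂ (invHom ρ.dual ρ)).re
      = 2 * ((Nat.card G : ℝ) * Nat.card K) * finrank ℂ (symInv ρ)
        - (Nat.card G : ℝ) * Nat.card K * finrank ℂ (invHom ρ.dual ρ) := by
    have h14 : (2 * ((Nat.card G : ℂ) * Nat.card K) * finrank ℂ (symInv ρ)
        - (Nat.card G : ℂ) * Nat.card K * finrank ℂ (invHom ρ.dual ρ))
        = ((2 * ((Nat.card G : ℝ) * Nat.card K) * finrank ℂ (symInv ρ)
        - (Nat.card G : ℝ) * Nat.card K * finrank ℂ (invHom ρ.dual ρ) : ℝ) : ℂ) := by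
      push_cast
      ring
    rw [h14, Complex.ofReal_re]
  rw [h12, h13] at h11
  rw [h11]
  have h15 : (finrank ℂ (symInv ρ) : ℝ) ≤ finrank ℂ (symInv σ) := by exact_mod_cast h1
  have h16 : (0 : ℝ) ≤ (Nat.card G : ℝ) * Nat.card K * finrank ℂ (invHom ρ.dual ρ) := by
    positivity
  have h17 : (0 : ℝ) ≤ 2 * ((Nat.card G : ℝ) * Nat.card K) := by positivity
  have h18 := mul_le_mul_of_nonneg_left h15 h17
  linarith

end Pool.Agent.H11.GQ
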