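import Pool.Agent.H11.GQ.Wgt

set_option autoImplicit false

/-!
PROJECT GQ (MP_bf82d2_ag), module Frm.
PROOF. `sum_w_chi` with `w = rk K`, `sum_rk`, `genus_eq` (`genus s - 1 = n (ν - 2) / 2`). Let `m = orderOf (s i)`, `q` the order of `s i`
modulo `K` (`q ∣ m`: `orderOf_map_dvd`). For `1 ≤ k < m`: `s i ^ k ∈ K` iff `q ∣ k` (`orderOf_dvd_iff_pow_eq_one`,
`QuotientGroup.eq_one_iff`), there are `m / q - 1` such `k` (`Nat.card_multiples` or `sum` over `range (m / q)`), and then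
`rk K (s i ^ k) = rk K 1`; the other `m - m / q` terms are `≤ ε n`. So
`(1 / m) ∑ ≤ rk K 1 * (1 / q - 1 / m) + ε n (1 - 1 / q) ≤ rk K 1 * ((1 - 1 / m) - (1 - 1 / q)) + ε n`; sum over `i`.
-/

namespace Pool.Agent.H11.GQ

open Finset Pool.Agent.H82.CO

variable {G : Type} [Group G] [Fintype G] {N : ℕ}

theorem sum_pow_le (K : Subgroup G) [K.Normal] (a : G) (ε : ℝ) (hε : 0 ≤ ε)
    (hD : ∀ c, c ∉ K → rk K c ≤ ε * Nat.card G) :
    (1 / (orderOf a : ℝ)) * ∑ k ∈ Ico 1 (orderOf a), rk K (a ^ k) ≤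
      rk K 1 * (1 / (orderOf (QuotientGroup.mk a : G ⧸ K) : ℝ) - 1 / (orderOf a : ℝ)) + ε * Nat.card G := by
  classical
  obtain ⟨t, ht⟩ : orderOf (QuotientGroup.mk a : G ⧸ K) ∣ orderOf a := orderOf_map_dvd (QuotientGroup.mk' K) a
  have hm : 0 < orderOf a := orderOf_pos a
  set m := orderOf a with hmdef
  set q := orderOf (QuotientGroup.mk a : G ⧸ K) with hq
  have hq0 : 0 < q := Nat.pos_of_ne_zero fun h => by rw [h, zero_mul] at ht; omega
  have ht0 : 0 < t := Nat.pos_of_ne_zero fun h => by rw [h, mul_zero] at ht; omega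
  have hmR : (0 : ℝ) < m := by exact_mod_cast hm
  have hqR : (0 : ℝ) < q := by exact_mod_cast hq0
  have hmq : (m : ℝ) = q * t := by exact_mod_cast ht
  have hn0 : (0 : ℝ) ≤ ε * Nat.card G := mul_nonneg hε (Nat.cast_nonneg _)
  have hmem : ∀ k, q ∣ k → a ^ k ∈ K := by
    intro k hk
    rw [← QuotientGroup.eq_one_iff, QuotientGroup.mk_pow]
    exact orderOf_dvd_iff_pow_eq_one.1 hk
  have hmem' : ∀ k, ¬ q ∣ k → a ^ k ∉ K := by
    intro k hk h
    apply hk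
    rw [← QuotientGroup.eq_one_iff, QuotientGroup.mk_pow] at h
    exact orderOf_dvd_iff_pow_eq_one.2 h
  have h1 : ∑ k ∈ Ico 1 m, rk K (a ^ k) ≤ ∑ k ∈ Ico 1 m, ((if q ∣ k then rk K 1 else 0) + ε * Nat.card G *
      (if q ∣ k then 0 else 1)) := by
    refine Finset.sum_le_sum fun k _ => ?_
    by_cases hk : q ∣ k
    · rw [if_pos hk, if_pos hk, rk_of_mem K (hmem k hk), mul_zero, add_zero]
    · rw [if_neg hk, if_neg hk, zero_add, mul_one]
      exact hD _ (hmem' k hk)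
  have h2 : ((Ico 1 m).filter fun k => q ∣ k).card = t - 1 := by
    have h3 : Ico 1 m = Ioc 0 (m - 1) := by
      ext k
      rw [mem_Ico, mem_Ioc]
      omega
    rw [h3, Nat.Ioc_filter_dvd_card_eq_div, ht]
    obtain ⟨t', rfl⟩ : ∃ t', t = t' + 1 := ⟨t - 1, by omega⟩
    have h4 : q * (t' + 1) - 1 = q - 1 + q * t' := by
      rw [mul_add, mul_one]
      omega
    rw [h4, Nat.add_mul_div_left _ _ hq0, Nat.div_eq_of_lt (by omega)]
    omega
  have h5 : ∑ k ∈ Ico 1 m, (if q ∣ k then rk K 1 else 0) = rk K 1 * ((t : ℝ) - 1) := by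
    rw [← Finset.sum_filter, Finset.sum_const, h2, nsmul_eq_mul, Nat.cast_sub ht0, Nat.cast_one, mul_comm]
  have h6 : ∑ k ∈ Ico 1 m, ε * Nat.card G * (if q ∣ k then (0 : ℝ) else 1) ≤ ε * Nat.card G * m := by
    rw [← Finset.mul_sum]
    refine mul_le_mul_of_nonneg_left ?_ hn0
    calc ∑ k ∈ Ico 1 m, (if q ∣ k then (0 : ℝ) else 1) ≤ ∑ _k ∈ Ico 1 m, (1 : ℝ) :=
          Finset.sum_le_sum fun k _ => by split_ifs <;> norm_num
      _ = ((m - 1 : ℕ) : ℝ) := by rw [Finset.sum_const, Nat.card_Ico, nsmul_eq_mul, mul_one]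
      _ ≤ m := by exact_mod_cast Nat.sub_le m 1
  rw [Finset.sum_add_distrib, h5] at h1
  have h7 : 1 / (m : ℝ) * ∑ k ∈ Ico 1 m, rk K (a ^ k) ≤
      1 / (m : ℝ) * (rk K 1 * ((t : ℝ) - 1) + ε * Nat.card G * m) :=
    mul_le_mul_of_nonneg_left (by linarith) (by positivity)
  refine h7.trans (le_of_eq ?_)
  have htR : (0 : ℝ) < t := by exact_mod_cast ht0
  rw [hmq]
  field_simp

theorem frm (s : Fin N → G) (K : Subgroup G) [K.Normal] (ε : ℝ) (hε : 0 ≤ ε)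
    (hD : ∀ c, c ∉ K → rk K c ≤ ε * Nat.card G) :
    (Nat.card G : ℝ) * Nat.card K + (Nat.card G : ℝ) / 2 * (rk K 1 * (nuK s K - 2) - ε * Nat.card G * N) ≤
      ∑ g, rk K g * (chi s g).re := by
  rw [sum_w_chi s (rk K) (rk_conj K), sum_rk]
  have h1 : ∑ i, (1 / (orderOf (s i) : ℝ)) * ∑ k ∈ Ico 1 (orderOf (s i)), rk K (s i ^ k) ≤
      ∑ i, (rk K 1 * (1 / (orderOf (QuotientGroup.mk (s i) : G ⧸ K) : ℝ) - 1 / (orderOf (s i) : ℝ)) +
        ε * Nat.card G) :=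
    Finset.sum_le_sum fun i _ => sum_pow_le K (s i) ε hε hD
  have h2 : ∑ i, (rk K 1 * (1 / (orderOf (QuotientGroup.mk (s i) : G ⧸ K) : ℝ) - 1 / (orderOf (s i) : ℝ)) +
        ε * Nat.card G) = rk K 1 * (∑ i, 1 / (orderOf (QuotientGroup.mk (s i) : G ⧸ K) : ℝ) -
        ∑ i, 1 / (orderOf (s i) : ℝ)) + N * (ε * Nat.card G) := by
    rw [Finset.sum_add_distrib, ← Finset.mul_sum, Finset.sum_sub_distrib, Finset.sum_const, Finset.card_univ,
      Fintype.card_fin, nsmul_eq_mul]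
  have h3 : nuK s K = N - ∑ i, 1 / (orderOf (QuotientGroup.mk (s i) : G ⧸ K) : ℝ) := by
    unfold nuK
    rw [Finset.sum_sub_distrib, Finset.sum_const, Finset.card_univ, Fintype.card_fin, nsmul_eq_mul, mul_one]
  rw [h2] at h1
  have h4 := mul_le_mul_of_nonneg_left h1 (show (0 : ℝ) ≤ (Nat.card G : ℝ) / 2 by positivity)
  rw [h3]
  unfold genus
  refine le_trans (le_of_eq ?_) (sub_le_sub_left h4 _)
  ring

end Pool.Agent.H11.GQ
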