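import Pool.Agent.H6.VA.Arith

set_option autoImplicit false

/-!
PROJECT GQ (MP_bf82d2_ag), module Hyp.
The gap `1 / 42` (the triangle `2, 3, 7`), with at most five orders, `1` allowed.
PROOF. Let `c` be the number of `i` with `2 ≤ k i`. The sum is `< c`, so `c ≥ 3`. `c = 5`: sum `≥ 5 / 2`. `c = 4`: each term is `1 / 2` or
`≥ 2 / 3`, not all are `1 / 2`: sum `≥ 2 + 1 / 6`. `c = 3`: `1 / a + 1 / b + 1 / c < 1` implies `≤ 41 / 42`: sort, or: if two of them are `2`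
the sum is `> 1`; one is `2`, `b ≤ c`: `b = 3`, `c ≥ 7`; `b = 4`, `c ≥ 5`: `19 / 20`; `b ≥ 5`: `9 / 10`; none is `2`: not all `3`, `≤ 11 / 12`.
It may be simplest to prove it for `Fin 5` (pad by `1`), with `interval_cases` on the orders `< 7` after a monotone reduction, or by
induction on lists.
-/

namespace Pool.Agent.H11.GQ

open Finset

theorem gap {N : ℕ} (hN : N ≤ 5) (k : Fin N → ℕ) (hk : ∀ i, 0 < k i) (h : 2 < ∑ i, (1 - 1 / (k i : ℝ))) :
    2 + 1 / 42 ≤ ∑ i, (1 - 1 / (k i : ℝ)) :=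
  Pool.Agent.H6.VA.gap k (fun i => hk i) h

end Pool.Agent.H11.GQ
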