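import Pool.Agent.H52.VC.Uni
import Pool.Agent.H52.VC.Qin
import Pool.Agent.H52.VC.Exi
import Pool.Agent.H52.VC.Pai
import Pool.Agent.H52.VC.MuG
import Pool.Agent.H52.VC.Chi

set_option autoImplicit false

/-!
PROJECT GQ (MP_bf82d2_ag), module Rep.
The representation with character `chi s`.
PROOF. `exists_rep_of (chi s)` with `chi_conj`, `chi_inv`; for a minimal invariant `W`: `exists_unitary (subR lam W _)`, `trace_tr`,
`pair_eq`, `pv_nat`.  The last equation is `symInv_eq` (module Qin) with the definition of `quadInv`.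
-/

namespace Pool.Agent.H11.GQ

open Finset Module
open Pool.Agent.H93.Hup (Inv MinInv)
open Pool.Agent.H52.VC
open Pool.Agent.H82.CO (chi quadInv)

theorem exists_chi {G : Type} [Group G] [Fintype G] {N : ℕ} (s : Fin N → G) (hp : (List.ofFn s).prod = 1)
    (hg : Subgroup.closure (Set.range s) = ⊤) :
    ∃ (E : Type) (_ : AddCommGroup E) (_ : Module ℂ E) (_ : FiniteDimensional ℂ E) (σ : Representation ℂ G E),
      (∀ g, LinearMap.trace ℂ E (σ g) = chi s g) ∧ (finrank ℂ (symInv σ) : ℂ) = quadInv s := by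
  obtain ⟨E, i1, i2, i3, σ, hσ⟩ := exists_rep_of (chi s) (fun g x => chi_conj s g x)
    (fun g => chi_inv s g) (by
      intro W hW
      obtain ⟨ρ', e, hu, he⟩ := exists_unitary (subR lam W hW.2.1)
      obtain ⟨m, hm⟩ := pv_nat s hp hg ρ' hu
      refine ⟨m, ?_⟩
      have h1 : ∀ g : G, LinearMap.trace ℂ W (subR lam W hW.2.1 g⁻¹)
          = LinearMap.trace ℂ (EuclideanSpace ℂ (Fin (finrank ℂ W))) (ρ' g⁻¹) := fun g =>
        trace_tr (subR lam W hW.2.1) ρ' e he g⁻¹
      rw [Finset.sum_congr rfl fun g _ => by rw [h1 g], pair_eq s ρ' hu, hm]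
      push_cast
      rfl)
  refine ⟨E, i1, i2, i3, σ, hσ, ?_⟩
  rw [symInv_eq, quadInv]
  simp only [hσ]

end Pool.Agent.H11.GQ
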