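import Pool.Agent.H11.GQ.Max
import Pool.Agent.H11.GQ.Frm
import Pool.Agent.H11.GQ.Fix
import Pool.Agent.H11.GQ.Rep
import Pool.Agent.H11.GQ.Hyp
import Pool.Agent.H82.SQ.Cor
import Pool.Agent.H54.SQ.Ten

set_option autoImplicit false

/-!
PROJECT GQ (MP_bf82d2_ag), module Main.  Assembly.
-/

namespace Pool.Agent.H11.GQ

open Finset Module Pool.Agent.H82.CO
open Pool.Agent.H52.VC (symInv)

/-- the inequality (5) of the note -/
theorem key {G : Type} [Group G] [Fintype G] {N : ℕ} (s : Fin N → G) (hp : (List.ofFn s).prod = 1)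
    (hg : Subgroup.closure (Set.range s) = ⊤) (K : Subgroup G) [K.Normal] (ε : ℝ) (hε : 0 ≤ ε)
    (hD : ∀ c, c ∉ K → rk K c ≤ ε * Nat.card G) :
    (Nat.card G : ℝ) * Nat.card K + (Nat.card G : ℝ) / 2 * (rk K 1 * (nuK s K - 2) - ε * Nat.card G * N) ≤
      2 * ((Nat.card G : ℝ) * Nat.card K) * (quadInv s).re := by
  obtain ⟨E, i1, i2, i3, σ, h1, h2⟩ := exists_chi s hp hg
  refine (frm s K ε hε hD).trans ?_
  have h3 := fix_le σ K
  have h4 : (quadInv s).re = (finrank ℂ (symInv σ) : ℝ) := by rw [← h2, Complex.natCast_re]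
  rw [h4]
  refine le_trans (le_of_eq ?_) h3
  exact sum_congr rfl fun g _ => by rw [h1]

theorem main : ∃ B : ℕ, ∀ (G : Type) [Group G] [Fintype G] (N : ℕ) (_hN : 4 ≤ N)
    (s : Fin N → G) (_hs : ∀ i, s i ≠ 1) (_hna : ∃ a b : G, a * b ≠ b * a)
    (_hprod : (List.ofFn s).prod = 1) (_hgen : Subgroup.closure (Set.range s) = ⊤)
    (_hg : 1 < genus s) (_hd : (quadInv s).re ≤ (N : ℝ) - 3),
    ∃ (K : Subgroup G) (_ : K.Normal), Nat.card K ≤ B ∧ nuK s K ≤ 2 := by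
  obtain ⟨e, he⟩ : ∃ e : ℕ, e = 420000 := ⟨_, rfl⟩
  have he0 : 0 < e := by omega
  have heR : (e : ℝ) = 420000 := by rw [he]; norm_num
  obtain ⟨b, hb⟩ : ∃ b : ℕ, b = beta e ^ e := ⟨_, rfl⟩
  refine ⟨504000 * b + 1100, fun G _ _ N hN s hs hna hprod hgen hg hd => ?_⟩
  by_cases hsmall : Nat.card G ≤ 504000 * b + 1100
  · refine ⟨⊤, inferInstance, ?_, ?_⟩
    · rw [Subgroup.card_top]
      exact hsmall
    · have h1 : nuK s (⊤ : Subgroup G) = 0 := by
        refine sum_eq_zero fun i _ => ?_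
        have h2 : (QuotientGroup.mk (s i) : G ⧸ (⊤ : Subgroup G)) = 1 :=
          (QuotientGroup.eq_one_iff (s i)).2 (Subgroup.mem_top _)
        rw [h2, orderOf_one]
        norm_num
      rw [h1]
      norm_num
  push Not at hsmall
  have hn : (504000 * b + 1100 : ℝ) < Nat.card G := by exact_mod_cast hsmall
  have hb0 : (0 : ℝ) ≤ b := Nat.cast_nonneg b
  have hn1 : (1100 : ℝ) < Nat.card G := by linarith
  have hN5 : N = 4 ∨ N = 5 := by
    by_contra hne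
    have h6 : 6 ≤ N := by omega
    have := (bounds s hs h6 hd).2.1
    omega
  have hNR : (N : ℝ) ≤ 5 := by
    have : N ≤ 5 := by omega
    exact_mod_cast this
  have hT : N = 4 → 5 / 1296 * (Nat.card G : ℝ) - 1 ≤ (quadInv s + extInv s).re := by
    intro hN4
    subst hN4
    exact Pool.Agent.H54.SQ.tensor_ge s hs hna hprod hgen hg
  obtain ⟨i, k, -, hroot⟩ := Pool.Agent.H82.SQ.many_roots s hs hN hT hd
  obtain ⟨c, hc⟩ : ∃ c, c = s i ^ k := ⟨_, rfl⟩
  rw [← hc] at hroot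
  have hroot' : 1 / 1000 * (Nat.card G : ℝ) ≤ rt c := by linarith
  obtain ⟨K, hK, hcard, hD⟩ := exists_max (G := G) e he0
  have hcK : c ∈ K := by
    by_contra hcK
    have h1 := hD c hcK
    have h2 := rt_le_rk K c
    rw [heR] at h1
    linarith
  have hrk : 1 / 1000 * (Nat.card G : ℝ) ≤ rk K 1 := by
    rw [← rk_of_mem K hcK]
    exact hroot'.trans (rt_le_rk K c)
  refine ⟨K, hK, ?_, ?_⟩
  · rw [← hb] at hcard
    omega
  by_contra hcon
  push Not at hcon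
  have hgap : 2 + 1 / 42 ≤ nuK s K :=
    gap (by omega) (fun i => orderOf (QuotientGroup.mk (s i) : G ⧸ K)) (fun i => orderOf_pos _) hcon
  have hkey := key s hprod hgen K (1 / 420000) (by norm_num) (by
    intro c hc
    have h1 := hD c hc
    rw [heR] at h1
    linarith)
  rw [← hb] at hcard
  have hcR : (Nat.card K : ℝ) ≤ b := by exact_mod_cast hcard
  obtain ⟨n, hn'⟩ : ∃ n : ℝ, n = Nat.card G := ⟨_, rfl⟩
  obtain ⟨κ, hκ⟩ : ∃ κ : ℝ, κ = Nat.card K := ⟨_, rfl⟩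
  obtain ⟨r, hr⟩ : ∃ r : ℝ, r = rk K 1 := ⟨_, rfl⟩
  obtain ⟨v, hv⟩ : ∃ v : ℝ, v = nuK s K := ⟨_, rfl⟩
  obtain ⟨d, hd'⟩ : ∃ d : ℝ, d = (quadInv s).re := ⟨_, rfl⟩
  rw [← hn', ← hκ, ← hr, ← hv, ← hd'] at hkey
  rw [← hn'] at hn hn1
  rw [← hn', ← hr] at hrk
  rw [← hv] at hgap
  rw [← hd'] at hd
  rw [← hκ] at hcR
  have hκ0 : 0 ≤ κ := by rw [hκ]; exact Nat.cast_nonneg _
  have hn0 : 0 < n := by linarith
  have h1 : n / 42000 ≤ r * (v - 2) := by
    have h2 : 1 / 1000 * n * (1 / 42) ≤ r * (v - 2) :=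
      mul_le_mul hrk (by linarith) (by norm_num) (by linarith)
    linarith
  have h2 : 1 / 420000 * n * N ≤ n / 84000 := by
    have := mul_le_mul_of_nonneg_left hNR (by linarith : (0 : ℝ) ≤ 1 / 420000 * n)
    linarith
  have h3 : n / 84000 ≤ r * (v - 2) - 1 / 420000 * n * N := by linarith
  have h4 : n / 2 * (n / 84000) ≤ n / 2 * (r * (v - 2) - 1 / 420000 * n * N) :=
    mul_le_mul_of_nonneg_left h3 (by linarith)
  have h5 : d ≤ 2 := by linarith
  have h6 : 2 * (n * κ) * d ≤ 2 * (n * κ) * 2 := mul_le_mul_of_nonneg_left h5 (by positivity)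
  have h7 : n * (n / 168000) ≤ n * (3 * κ) := by nlinarith
  have h8 := le_of_mul_le_mul_left h7 hn0
  linarith

end Pool.Agent.H11.GQ
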