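import Pool.Agent.H11.GQ.Stp

set_option autoImplicit false

/-!
PROJECT GQ (MP_bf82d2_ag), module Max.
PROOF. By contradiction: if there is no such `K`, then for all `j ≤ e + 1` there is a normal `K` with `|K| ≤ beta e ^ j` and
`j |G| / e ≤ rk K 1` (induction from `K = ⊥` by `step`; for `j ≤ e` it is not a `K` as wanted, `beta e ^ j ≤ beta e ^ e`);
`j = e + 1` contradicts `rk_le`.
-/

namespace Pool.Agent.H11.GQ

open Finset Pool.Agent.H82.CO

variable {G : Type} [Group G] [Fintype G]

theorem exists_max (e : ℕ) (he : 0 < e) : ∃ K : Subgroup G, K.Normal ∧ Nat.card K ≤ beta e ^ e ∧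
    ∀ c, c ∉ K → e * rk K c < Nat.card G := by
  by_contra hcon
  push Not at hcon
  have hb : 1 ≤ beta e := Nat.one_le_pow _ _ (Nat.succ_pos e)
  have key : ∀ j : ℕ, j ≤ e + 1 → ∃ K : Subgroup G, K.Normal ∧ Nat.card K ≤ beta e ^ j ∧
      (j : ℝ) * ((Nat.card G : ℝ) / e) ≤ rk K 1 := by
    intro j
    induction j with
    | zero =>
      intro _
      refine ⟨⊥, inferInstance, ?_, ?_⟩
      · rw [Subgroup.card_bot, pow_zero]
      · rw [Nat.cast_zero, zero_mul]
        exact rk_nonneg _ _
    | succ j ih =>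
      intro hj
      obtain ⟨K, hK, h1, h2⟩ := ih (by omega)
      have := hK
      obtain ⟨K', hK', h3, h4⟩ := step e he K
        (hcon K hK (h1.trans (Nat.pow_le_pow_right hb (by omega))))
      refine ⟨K', hK', h3.trans ?_, ?_⟩
      · rw [pow_succ, mul_comm]
        exact Nat.mul_le_mul_right _ h1
      · push_cast
        linarith
  obtain ⟨K, _, _, h⟩ := key (e + 1) le_rfl
  have h1 := h.trans (rk_le K 1)
  have hG : (0 : ℝ) < Nat.card G := by exact_mod_cast Nat.card_pos
  have he' : (0 : ℝ) < e := by exact_mod_cast he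
  have h2 : ((e + 1 : ℕ) : ℝ) * ((Nat.card G : ℝ) / e) = Nat.card G + Nat.card G / e := by
    push_cast
    field_simp
  rw [h2] at h1
  have h3 : 0 < (Nat.card G : ℝ) / e := div_pos hG he'
  linarith

end Pool.Agent.H11.GQ
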