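import Pool.Agent.H11.GQ.Defs
import Pool.Agent.H82.CO.FS

set_option autoImplicit false

/-!
PROJECT GQ (MP_bf82d2_ag), module Ord.
An element with at least `|G| / e` square roots has order at most `2 e`, and there are at most `e` such elements.
PROOF. `∑ g, rt g = |G|` (`Pool.Agent.H82.CO.sum_rt`), `rt g = #{x : x ^ 2 = g}`.
`order_le`: if `x ^ 2 = c`, then `x` commutes with `c` and `(x * c ^ j) ^ 2 = c ^ (2 j + 1)`, so `rt c ≤ rt (c ^ (2 j + 1))` (injective map
`x ↦ x * c ^ j`). Let `q = orderOf c`. The `c ^ (2 j + 1)`, `j < (q + 1) / 2`, are different (`2 j + 1 ≤ q`, `pow_inj_mod` or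
`pow_injOn_Iio_orderOf` after reducing `2j+1 = q` to `0`), so `(q + 1) / 2 * rt c ≤ ∑ rt = |G| ≤ e * rt c`, `rt c > 0`, so
`(q + 1) / 2 ≤ e`.
`card_le`: the sum of `rt` over the set.
-/

namespace Pool.Agent.H11.GQ

open Finset Pool.Agent.H82.CO

variable {G : Type} [Group G] [Fintype G]

private theorem rt_nonneg' (g : G) : 0 ≤ rt g := by
  classical
  rw [rt]
  exact sum_nonneg fun u _ => by split_ifs <;> norm_num

private theorem rt_le_pow (c : G) (j : ℕ) : rt c ≤ rt (c ^ (2 * j + 1)) := by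
  classical
  rw [rt, rt, ← Equiv.sum_comp (Equiv.mulRight (c ^ j)) fun u : G => if u ^ 2 = c ^ (2 * j + 1) then (1 : ℝ) else 0]
  refine sum_le_sum fun u _ => ?_
  rw [Equiv.coe_mulRight]
  by_cases h : u ^ 2 = c
  · have h1 : (u * c ^ j) ^ 2 = c ^ (2 * j + 1) := by
      have hc : Commute u (c ^ j) := by
        rw [← h]
        exact ((Commute.refl u).pow_right 2).pow_right j
      rw [hc.mul_pow, h, ← pow_mul, ← pow_succ']
      congr 1
      ring
    rw [if_pos h, if_pos h1]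
  · rw [if_neg h]
    split_ifs <;> norm_num

theorem order_le (c : G) (e : ℕ) (h : (Nat.card G : ℝ) ≤ e * rt c) : orderOf c ≤ 2 * e := by
  classical
  have hG : (0 : ℝ) < Nat.card G := by exact_mod_cast Nat.card_pos
  have h0 : 0 < rt c := by
    rcases (rt_nonneg' c).eq_or_lt with h1 | h1
    · rw [← h1, mul_zero] at h
      linarith
    · exact h1
  set q := orderOf c with hq
  have hinj : Set.InjOn (fun j : ℕ => c ^ (2 * j + 1)) (range ((q + 1) / 2) : Finset ℕ) := by
    intro i hi j hj hij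
    have hi' := mem_range.1 (mem_coe.1 hi)
    have hj' := mem_range.1 (mem_coe.1 hj)
    have h1 : c ^ (2 * i) = c ^ (2 * j) := by
      have h2 : c ^ (2 * i) * c = c ^ (2 * j) * c := by
        rw [← pow_succ, ← pow_succ]
        exact hij
      exact mul_right_cancel h2
    have h3 := pow_injOn_Iio_orderOf (x := c) (show 2 * i ∈ Set.Iio (orderOf c) by rw [Set.mem_Iio]; omega)
      (show 2 * j ∈ Set.Iio (orderOf c) by rw [Set.mem_Iio]; omega) h1
    omega
  have h1 : (((q + 1) / 2 : ℕ) : ℝ) * rt c ≤ Nat.card G := by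
    calc (((q + 1) / 2 : ℕ) : ℝ) * rt c = ∑ j ∈ range ((q + 1) / 2), rt c := by
          rw [sum_const, card_range, nsmul_eq_mul]
      _ ≤ ∑ j ∈ range ((q + 1) / 2), rt (c ^ (2 * j + 1)) := sum_le_sum fun j _ => rt_le_pow c j
      _ = ∑ g ∈ (range ((q + 1) / 2)).image fun j : ℕ => c ^ (2 * j + 1), rt g := (sum_image hinj).symm
      _ ≤ ∑ g : G, rt g := sum_le_sum_of_subset_of_nonneg (subset_univ _) fun g _ _ => rt_nonneg' g
      _ = Nat.card G := sum_rt
  have h2 : (((q + 1) / 2 : ℕ) : ℝ) ≤ e := le_of_mul_le_mul_right (h1.trans h) h0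
  have h3 : (q + 1) / 2 ≤ e := by exact_mod_cast h2
  omega

theorem card_le (e : ℕ) : {c : G | (Nat.card G : ℝ) ≤ e * rt c}.ncard ≤ e := by
  classical
  have hG : (0 : ℝ) < Nat.card G := by exact_mod_cast Nat.card_pos
  set T : Finset G := univ.filter fun c : G => (Nat.card G : ℝ) ≤ e * rt c with hT
  have hset : {c : G | (Nat.card G : ℝ) ≤ e * rt c} = (T : Set G) := by
    ext c
    simp [hT]
  rw [hset, Set.ncard_coe_finset]
  have h1 : (T.card : ℝ) * Nat.card G ≤ e * Nat.card G := by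
    calc (T.card : ℝ) * Nat.card G = ∑ c ∈ T, (Nat.card G : ℝ) := by rw [sum_const, nsmul_eq_mul]
      _ ≤ ∑ c ∈ T, e * rt c := sum_le_sum fun c hc => (mem_filter.1 hc).2
      _ = e * ∑ c ∈ T, rt c := (mul_sum _ _ _).symm
      _ ≤ e * ∑ c : G, rt c :=
          mul_le_mul_of_nonneg_left (sum_le_sum_of_subset_of_nonneg (subset_univ _) fun g _ _ => rt_nonneg' g) (Nat.cast_nonneg e)
      _ = e * Nat.card G := by rw [sum_rt]
  have h2 : (T.card : ℝ) ≤ e := le_of_mul_le_mul_right h1 hG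
  exact_mod_cast h2

end Pool.Agent.H11.GQ
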