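import Pool.Agent.H11.GQ.Wrd
import Pool.Agent.H11.GQ.Ord
import Pool.Agent.H11.GQ.Wgt
import Pool.Agent.H82.SQ.FS

set_option autoImplicit false

/-!
PROJECT GQ (MP_bf82d2_ag), module Stp.
The step: if some `c ∉ K` has `rk K c ≥ |G| / e`, then there is a larger normal `K'`.
PROOF. `Q = G ⧸ K`, `D = {q : Q | |Q| ≤ e * rt q}`; it is invariant under conjugation (`Pool.Agent.H82.SQ.rt_conj`), `M = closure D`
is normal (`Subgroup.normalClosure_eq..` or directly by closure induction), `|M| ≤ beta e` by `dietzmann` (`m = 2 e`, `k = e`) with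
`order_le`, `card_le`.  `K' = M.comap (QuotientGroup.mk' K)`, `|K'| = |M| |K|` (by indices: `Subgroup.index_comap_of_surjective`,
`Subgroup.card_mul_index`).  `rk_quot : rk K c = |K| * rt (c K)` (fibres of `G → Q` have `|K|` elements) and `|G| = |K| |Q|`: so `c K ∈ D`.
The sets of the `x` with `x ^ 2 ∈ K` and with `x ^ 2 ∈ c K` are disjoint and in the set for `K'`: `rk K 1 + rk K c ≤ rk K' 1`.
-/

namespace Pool.Agent.H11.GQ

open Finset Pool.Agent.H82.CO

variable {G : Type} [Group G] [Fintype G]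

private theorem fib_stp [DecidableEq G] (K : Subgroup G) [K.Normal] [DecidableEq (G ⧸ K)] (q : G ⧸ K) :
    (univ.filter fun x : G => (QuotientGroup.mk x : G ⧸ K) = q).card = Nat.card K := by
  classical
  have hs := QuotientGroup.mk'_surjective K
  have h1 : (univ.filter fun x : G => QuotientGroup.mk' K x = q).card =
      (univ.filter fun x : G => QuotientGroup.mk' K x = 1).card :=
    MonoidHom.card_fiber_eq_of_mem_range (QuotientGroup.mk' K) (hs q) (hs 1)
  have h2 : (univ.filter fun x : G => QuotientGroup.mk' K x = 1) = univ.filter fun x : G => x ∈ K := by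
    ext x
    rw [mem_filter, mem_filter]
    exact and_congr_right fun _ => QuotientGroup.eq_one_iff x
  rw [h2] at h1
  have h3 : Nat.card K = (univ.filter fun x : G => x ∈ K).card := by
    rw [Nat.card_eq_fintype_card]
    exact Fintype.card_subtype fun x => x ∈ K
  rw [h3]
  exact h1

theorem rk_quot (K : Subgroup G) [K.Normal] [Fintype (G ⧸ K)] (c : G) :
    rk K c = Nat.card K * rt (QuotientGroup.mk c : G ⧸ K) := by
  classical
  have h1 : ∀ x : G, (if (x ^ 2)⁻¹ * c ∈ K then (1 : ℝ) else 0) =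
      (fun u : G ⧸ K => if u ^ 2 = (QuotientGroup.mk c : G ⧸ K) then (1 : ℝ) else 0) (QuotientGroup.mk x) := by
    intro x
    have h2 : ((x ^ 2)⁻¹ * c ∈ K) ↔ ((QuotientGroup.mk x : G ⧸ K) ^ 2 = QuotientGroup.mk c) := by
      rw [← QuotientGroup.eq]
      rfl
    by_cases h3 : (x ^ 2)⁻¹ * c ∈ K
    · rw [if_pos h3]
      exact (if_pos (h2.1 h3)).symm
    · rw [if_neg h3]
      exact (if_neg fun h4 => h3 (h2.2 h4)).symm
  have h5 : (univ.image fun x : G => (QuotientGroup.mk x : G ⧸ K)) = univ :=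
    image_univ_of_surjective QuotientGroup.mk_surjective
  rw [rk, rt, sum_congr rfl fun x _ => h1 x,
    sum_comp (fun u : G ⧸ K => if u ^ 2 = (QuotientGroup.mk c : G ⧸ K) then (1 : ℝ) else 0)
      (fun x : G => (QuotientGroup.mk x : G ⧸ K)), h5, mul_sum]
  refine sum_congr rfl fun q _ => ?_
  rw [fib_stp K q, nsmul_eq_mul]
  by_cases hq : q ^ 2 = (QuotientGroup.mk c : G ⧸ K)
  · rw [if_pos hq, if_pos hq]
  · rw [if_neg hq, if_neg hq]

private theorem card_stp (K : Subgroup G) [K.Normal] (M : Subgroup (G ⧸ K)) :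
    Nat.card (M.comap (QuotientGroup.mk' K)) = Nat.card M * Nat.card K := by
  have h1 := Subgroup.card_mul_index (M.comap (QuotientGroup.mk' K))
  rw [Subgroup.index_comap_of_surjective M (QuotientGroup.mk'_surjective K)] at h1
  have h2 := Subgroup.card_mul_index M
  have h3 := Subgroup.card_mul_index K
  have h4 : K.index = Nat.card (G ⧸ K) := rfl
  have h5 : 0 < M.index := Nat.pos_of_ne_zero Subgroup.index_ne_zero_of_finite
  apply Nat.eq_of_mul_eq_mul_right h5
  rw [h1, ← h3, h4, ← h2]
  ring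

theorem step (e : ℕ) (he : 0 < e) (K : Subgroup G) [K.Normal] (h : ∃ c, c ∉ K ∧ (Nat.card G : ℝ) ≤ e * rk K c) :
    ∃ K' : Subgroup G, K'.Normal ∧ Nat.card K' ≤ beta e * Nat.card K ∧
      rk K 1 + (Nat.card G : ℝ) / e ≤ rk K' 1 := by
  classical
  obtain ⟨c, hc, hr⟩ := h
  let D : Set (G ⧸ K) := {q | (Nat.card (G ⧸ K) : ℝ) ≤ e * rt q}
  have hD : ∀ d ∈ D, ∀ x : G ⧸ K, x * d * x⁻¹ ∈ D := by
    intro d hd x
    show (Nat.card (G ⧸ K) : ℝ) ≤ e * rt (x * d * x⁻¹)
    rw [Pool.Agent.H82.SQ.rt_conj]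
    exact hd
  have hM : Nat.card (Subgroup.closure D) ≤ beta e :=
    dietzmann D hD (2 * e) e (fun d hd => order_le d e hd) (card_le e)
  have hN : (Subgroup.closure D).Normal := by
    refine ⟨fun n hn g => ?_⟩
    induction hn using Subgroup.closure_induction with
    | mem x hx => exact Subgroup.subset_closure (hD x hx g)
    | one =>
      rw [mul_one, mul_inv_cancel]
      exact Subgroup.one_mem _
    | mul x y _ _ hx hy =>
      have h1 : g * (x * y) * g⁻¹ = (g * x * g⁻¹) * (g * y * g⁻¹) := by group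
      rw [h1]
      exact Subgroup.mul_mem _ hx hy
    | inv x _ hx =>
      have h1 : g * x⁻¹ * g⁻¹ = (g * x * g⁻¹)⁻¹ := by group
      rw [h1]
      exact Subgroup.inv_mem _ hx
  have heR : (0 : ℝ) < e := Nat.cast_pos.2 he
  have hcD : (QuotientGroup.mk c : G ⧸ K) ∈ D := by
    show (Nat.card (G ⧸ K) : ℝ) ≤ e * rt (QuotientGroup.mk c : G ⧸ K)
    have h1 : (Nat.card K : ℝ) * Nat.card (G ⧸ K) = Nat.card G := by
      have h2 := Subgroup.card_mul_index K
      have h4 : K.index = Nat.card (G ⧸ K) := rfl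
      rw [h4] at h2
      exact_mod_cast h2
    have h3 : (0 : ℝ) < Nat.card K := by exact_mod_cast Nat.card_pos
    rw [rk_quot K c, ← h1] at hr
    refine le_of_mul_le_mul_left ?_ h3
    calc (Nat.card K : ℝ) * Nat.card (G ⧸ K) ≤ e * (Nat.card K * rt (QuotientGroup.mk c : G ⧸ K)) := hr
      _ = Nat.card K * (e * rt (QuotientGroup.mk c : G ⧸ K)) := by ring
  refine ⟨(Subgroup.closure D).comap (QuotientGroup.mk' K), hN.comap _, ?_, ?_⟩
  · rw [card_stp K (Subgroup.closure D)]
    exact Nat.mul_le_mul_right _ hM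
  · have h1 : (Nat.card G : ℝ) / e ≤ rk K c := by
      rw [div_le_iff₀ heR, mul_comm]
      exact hr
    have h2 : rk K 1 + rk K c ≤ rk ((Subgroup.closure D).comap (QuotientGroup.mk' K)) 1 := by
      rw [rk, rk, rk, ← sum_add_distrib]
      refine sum_le_sum fun x _ => ?_
      have hx' : ∀ y : G, (QuotientGroup.mk y : G ⧸ K) ∈ Subgroup.closure D →
          y⁻¹ * 1 ∈ (Subgroup.closure D).comap (QuotientGroup.mk' K) := by
        intro y hy
        rw [mul_one, Subgroup.mem_comap, map_inv]
        exact Subgroup.inv_mem _ hy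
      by_cases h3 : (x ^ 2)⁻¹ * 1 ∈ K
      · have h4 : (x ^ 2)⁻¹ * c ∉ K := by
          intro h5
          apply hc
          rw [mul_one] at h3
          have h6 := K.mul_mem (K.inv_mem h3) h5
          rwa [inv_inv, mul_inv_cancel_left] at h6
        have h7 : (x ^ 2)⁻¹ * 1 ∈ (Subgroup.closure D).comap (QuotientGroup.mk' K) := by
          apply hx'
          rw [mul_one, inv_mem_iff] at h3
          rw [(QuotientGroup.eq_one_iff (x ^ 2)).2 h3]
          exact Subgroup.one_mem _
        rw [if_pos h3, if_neg h4, if_pos h7, add_zero]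
      · by_cases h5 : (x ^ 2)⁻¹ * c ∈ K
        · have h7 : (x ^ 2)⁻¹ * 1 ∈ (Subgroup.closure D).comap (QuotientGroup.mk' K) := by
            apply hx'
            rw [QuotientGroup.eq.2 h5]
            exact Subgroup.subset_closure hcD
          rw [if_neg h3, if_pos h5, if_pos h7, zero_add]
        · rw [if_neg h3, if_neg h5, add_zero]
          split_ifs
          · exact zero_le_one
          · exact le_refl _
    linarith

end Pool.Agent.H11.GQ
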