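import Pool.Agent.H52.VC.Defs

set_option autoImplicit false

/-!
PROJECT GQ (MP_bf82d2_ag), module Trf.
The character of the space of the vectors fixed by a normal subgroup `K`.
PROOF. `P = (1 / |K|) ∑ k : K, σ k` has its values in `F = fixG σ K` and is the identity on `F`. `T = σ g ∘ P` maps `E` to `F` and
agrees with `σ g` on `F`: `LinearMap.trace_restrict_eq_of_forall_mem` gives `trace T = trace (T.restrict) = trace (subR .. g)`;
`T = (1 / |K|) ∑ σ (g * k)`, `map_sum`.
-/

namespace Pool.Agent.H11.GQ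

open Finset Module
open Pool.Agent.H93.Hup (Inv MinInv)
open Pool.Agent.H52.VC

variable {G : Type} [Group G] [Fintype G] {E : Type} [AddCommGroup E] [Module ℂ E] [FiniteDimensional ℂ E]

theorem inv_fixG (σ : Representation ℂ G E) (K : Subgroup G) [K.Normal] : Inv σ (fixG σ K) := by
  intro g v hv k hk
  have h1 : k * g = g * (g⁻¹ * k * g) := by group
  have h2 : g⁻¹ * k * g ∈ K := by
    have h3 := Subgroup.Normal.conj_mem (inferInstance : K.Normal) k hk g⁻¹
    rwa [inv_inv] at h3
  have h4 : σ k (σ g v) = σ (k * g) v := by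
    rw [map_mul]
    rfl
  have h5 : σ (g * (g⁻¹ * k * g)) v = σ g (σ (g⁻¹ * k * g) v) := by
    rw [map_mul σ g]
    rfl
  rw [h4, h1, h5, hv _ h2]

open Classical in
theorem trace_fix (σ : Representation ℂ G E) (K : Subgroup G) [K.Normal] (g : G) :
    LinearMap.trace ℂ (fixG σ K) (subR σ (fixG σ K) (inv_fixG σ K) g) =
      (1 / (Nat.card K : ℂ)) * ∑ k : G, if k ∈ K then LinearMap.trace ℂ E (σ (g * k)) else 0 := by
  have hc0 : (Nat.card K : ℂ) ≠ 0 := Nat.cast_ne_zero.2 Nat.card_pos.ne'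
  have hsumc : (∑ k : G, if k ∈ K then (1 : ℂ) else 0) = (Nat.card K : ℂ) := by
    rw [Finset.sum_boole, Nat.card_eq_fintype_card, Fintype.card_subtype]
  -- the projection
  set P : E →ₗ[ℂ] E := (1 / (Nat.card K : ℂ)) • ∑ k : G, if k ∈ K then (σ k : E →ₗ[ℂ] E) else 0 with hP
  have hPap : ∀ v, P v = (1 / (Nat.card K : ℂ)) • ∑ k : G, if k ∈ K then σ k v else 0 := by
    intro v
    rw [hP, LinearMap.smul_apply, LinearMap.sum_apply]
    congr 1
    refine Finset.sum_congr rfl fun k _ => ?_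
    split_ifs
    · rfl
    · rfl
  have hPmem : ∀ v, P v ∈ fixG σ K := by
    intro v h hh
    rw [hPap, map_smul, map_sum]
    congr 1
    rw [← Equiv.sum_comp (Equiv.mulLeft h) (fun k : G => if k ∈ K then σ k v else 0)]
    refine Finset.sum_congr rfl fun k _ => ?_
    rw [Equiv.coe_mulLeft]
    by_cases hk : k ∈ K
    · rw [if_pos hk, if_pos (K.mul_mem hh hk), map_mul]
      rfl
    · rw [if_neg hk, if_neg (fun h' => hk ((K.mul_mem_cancel_left hh).1 h')), map_zero]
  have hPid : ∀ v ∈ fixG σ K, P v = v := by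
    intro v hv
    rw [hPap]
    have h1 : ∀ k : G, (if k ∈ K then σ k v else 0) = (if k ∈ K then (1 : ℂ) else 0) • v := by
      intro k
      split_ifs with hk
      · rw [hv k hk, one_smul]
      · rw [zero_smul]
    rw [Finset.sum_congr rfl fun k _ => h1 k, ← Finset.sum_smul, hsumc, smul_smul, one_div,
      inv_mul_cancel₀ hc0, one_smul]
  -- the operator
  set T : E →ₗ[ℂ] E := (σ g : E →ₗ[ℂ] E) ∘ₗ P with hT
  have hTmem : ∀ v, T v ∈ fixG σ K := fun v => inv_fixG σ K g _ (hPmem v)
  have h1 : LinearMap.trace ℂ E T = LinearMap.trace ℂ (fixG σ K) (subR σ (fixG σ K) (inv_fixG σ K) g) := by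
    rw [← LinearMap.trace_restrict_eq_of_forall_mem (fixG σ K) T hTmem]
    congr 1
    ext v
    show T (v : E) = σ g (v : E)
    rw [hT, LinearMap.comp_apply, hPid _ v.2]
  rw [← h1]
  have h2 : T = (1 / (Nat.card K : ℂ)) • ∑ k : G, if k ∈ K then (σ (g * k) : E →ₗ[ℂ] E) else 0 := by
    ext v
    rw [hT, LinearMap.comp_apply, hPap, map_smul, map_sum, LinearMap.smul_apply, LinearMap.sum_apply]
    congr 1
    refine Finset.sum_congr rfl fun k _ => ?_
    split_ifs
    · rw [map_mul]
      rfl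
    · rw [map_zero]
      rfl
  rw [h2, map_smul, map_sum, smul_eq_mul]
  congr 1
  refine Finset.sum_congr rfl fun k _ => ?_
  split_ifs
  · rfl
  · exact map_zero _

end Pool.Agent.H11.GQ
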