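import Mathlib

set_option autoImplicit false

/-!
PROJECT GQ (MP_bf82d2_ag), module Wrd.
Dietzmann's lemma with a bound: a finite conjugation invariant set of elements of bounded order generates a bounded group.
PROOF. (a) Every `h` in `closure D` is `l.prod` for a list `l` of elements of `D` (closure induction; `d⁻¹ = d ^ (orderOf d - 1)`,
`H` is finite; `(l.map ..)`).
(b) MOVE. If the entries of `l` are in `D` and `j ≤ l.count d` (`d ∈ D`), there is `l'` with entries in `D`, `l'.length + j = l.length`,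
`l.prod = d ^ j * l'.prod`: induction on `j`; let `l = l1 ++ d :: l2` with `d ∉ l1` (first occurrence, e.g. `List.append_of_mem` /
`List.mem_iff_append` in a form with `d ∉ l1`); `l.prod = d * (l1.map (fun x => d⁻¹ * x * d) ++ l2).prod`, and `d` occurs in the new
list at least `l2.count d = l.count d - 1` times.
(c) Take `l` of least length with `l.prod = h`. By (b) with `j = orderOf d`, `d ^ j = 1`: `l.count d < orderOf d ≤ m` for each `d ∈ D`, so
`l.length = ∑_{d ∈ D} l.count d ≤ k * m` (`Multiset.toFinset_sum_count_eq` / `List.sum_toFinset_count_eq_length`).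
(d) So `closure D` is covered by the products of the `Fin (k * m) → D ∪ {1}` (pad by `1`): `Nat.card (Fin (k*m) → Option D) =
(D.ncard + 1) ^ (k * m) ≤ (k + 1) ^ (k * m)`.
-/

namespace Pool.Agent.H11.GQ

private theorem wrd_move {H : Type} [Group H] [DecidableEq H] (D : Set H)
    (hD : ∀ d ∈ D, ∀ x : H, x * d * x⁻¹ ∈ D) (d : H) (l : List H)
    (hl : ∀ x ∈ l, x ∈ D) (hdl : d ∈ l) :
    ∃ l' : List H, (∀ x ∈ l', x ∈ D) ∧ l'.length + 1 = l.length ∧ l.prod = d * l'.prod ∧
      l.count d ≤ l'.count d + 1 := by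
  obtain ⟨l1, l2, rfl⟩ := List.append_of_mem hdl
  refine ⟨l1.map (fun x => d⁻¹ * x * d) ++ l2, ?_, ?_, ?_, ?_⟩
  · intro x hx
    rcases List.mem_append.mp hx with h | h
    · obtain ⟨y, hy, rfl⟩ := List.mem_map.mp h
      have h1 := hD y (hl y (List.mem_append.mpr (Or.inl hy))) d⁻¹
      simpa using h1
    · exact hl x (by simp [h])
  · simp; omega
  · have h1 : (l1.map (fun x => d⁻¹ * x * d)).prod = d⁻¹ * l1.prod * d := by
      induction l1 with
      | nil => simp
      | cons a l1 ih =>
        rw [List.map_cons, List.prod_cons, List.prod_cons]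
        rw [ih (fun x hx => hl x (by
          simp only [List.cons_append, List.mem_cons]
          exact Or.inr hx)) (by simp)]
        group
    rw [List.prod_append, List.prod_append, List.prod_cons, h1]
    group
  · have hinj : Function.Injective (fun x : H => d⁻¹ * x * d) := by
      intro x y hxy
      have h2 : d⁻¹ * x * d = d⁻¹ * y * d := hxy
      exact mul_left_cancel (mul_right_cancel h2)
    have h3 : (l1.map (fun x => d⁻¹ * x * d)).count d = l1.count d := by
      have h4 := List.count_map_of_injective l1 (fun x : H => d⁻¹ * x * d) hinj d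
      simpa using h4
    rw [List.count_append, List.count_append, List.count_cons_self, h3]
    omega

private theorem wrd_moves {H : Type} [Group H] [DecidableEq H] (D : Set H)
    (hD : ∀ d ∈ D, ∀ x : H, x * d * x⁻¹ ∈ D) (d : H) (j : ℕ) :
    ∀ l : List H, (∀ x ∈ l, x ∈ D) → j ≤ l.count d →
    ∃ l' : List H, (∀ x ∈ l', x ∈ D) ∧ l'.length + j = l.length ∧ l.prod = d ^ j * l'.prod := by
  induction j with
  | zero =>
    intro l hl _
    exact ⟨l, hl, rfl, by simp⟩
  | succ j ih =>
    intro l hl hj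
    have hdl : d ∈ l := List.count_pos_iff.mp (by omega)
    obtain ⟨l1, h1, h2, h3, h4⟩ := wrd_move D hD d l hl hdl
    obtain ⟨l2, h5, h6, h7⟩ := ih l1 h1 (by omega)
    refine ⟨l2, h5, by omega, ?_⟩
    rw [h3, h7, pow_succ', mul_assoc]

private theorem wrd_short {H : Type} [Group H] [Finite H] (D : Set H)
    (hD : ∀ d ∈ D, ∀ x : H, x * d * x⁻¹ ∈ D) (m k : ℕ)
    (hm : ∀ d ∈ D, orderOf d ≤ m) (hk : D.ncard ≤ k) (h : H) (hh : h ∈ Subgroup.closure D) :
    ∃ l : List H, (∀ x ∈ l, x ∈ D) ∧ l.prod = h ∧ l.length ≤ k * m := by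
  classical
  have hex : ∃ n : ℕ, ∃ l : List H, (∀ x ∈ l, x ∈ D) ∧ l.prod = h ∧ l.length = n := by
    have h1 : h ∈ Submonoid.closure D := by
      rw [← Subgroup.closure_toSubmonoid_of_finite]
      exact hh
    obtain ⟨l, hl, hp⟩ := Submonoid.exists_list_of_mem_closure h1
    exact ⟨l.length, l, hl, hp, rfl⟩
  obtain ⟨l, hl, hp, hlen⟩ := Nat.find_spec hex
  refine ⟨l, hl, hp, ?_⟩
  have hc : ∀ d ∈ D, l.count d ≤ m := by
    intro d hd
    by_contra hcon
    have h2 : orderOf d ≤ l.count d := by
      have := hm d hd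
      omega
    obtain ⟨l', h3, h4, h5⟩ := wrd_moves D hD d (orderOf d) l hl h2
    rw [pow_orderOf_eq_one, one_mul] at h5
    have hpos : 0 < orderOf d := orderOf_pos d
    refine Nat.find_min hex (m := l'.length) (by omega) ⟨l', h3, by rw [← h5, hp], rfl⟩
  calc l.length = ∑ a ∈ l.toFinset, l.count a := (List.sum_toFinset_count_eq_length l).symm
    _ ≤ ∑ _a ∈ l.toFinset, m :=
        Finset.sum_le_sum fun a ha => hc a (hl a (List.mem_toFinset.mp ha))
    _ = l.toFinset.card * m := by rw [Finset.sum_const, smul_eq_mul]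
    _ ≤ k * m := by
        refine Nat.mul_le_mul_right m (le_trans ?_ hk)
        rw [← Set.ncard_coe_finset]
        refine Set.ncard_le_ncard ?_ (Set.toFinite D)
        intro a ha
        exact hl a (List.mem_toFinset.mp (Finset.mem_coe.mp ha))

private def wrdF {H : Type} [Group H] (D : Set H) (N : ℕ) (f : Fin N → Option D) : H :=
  (List.ofFn (fun i => (f i).elim 1 (fun d => (d : H)))).prod

private theorem wrd_cover {H : Type} [Group H] (D : Set H) (N : ℕ) :
    ∀ l : List H, (∀ x ∈ l, x ∈ D) → l.length ≤ N → ∃ f : Fin N → Option D, wrdF D N f = l.prod := by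
  induction N with
  | zero =>
    intro l _ hN
    have h0 : l = [] := List.length_eq_zero_iff.mp (by omega)
    refine ⟨Fin.elim0, ?_⟩
    rw [h0]
    simp [wrdF]
  | succ N ih =>
    intro l hl hN
    cases l with
    | nil =>
      obtain ⟨f, hf⟩ := ih [] (by simp) (by simp)
      refine ⟨Fin.cons none f, ?_⟩
      unfold wrdF at hf ⊢
      rw [List.ofFn_succ, List.prod_cons]
      simp only [Fin.cons_zero, Fin.cons_succ]
      rw [hf]
      simp
    | cons a l =>
      obtain ⟨f, hf⟩ := ih l (fun x hx => hl x (List.mem_cons_of_mem a hx))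
        (by simpa using hN)
      refine ⟨Fin.cons (some ⟨a, hl a List.mem_cons_self⟩) f, ?_⟩
      unfold wrdF at hf ⊢
      rw [List.ofFn_succ, List.prod_cons, List.prod_cons]
      simp only [Fin.cons_zero, Fin.cons_succ]
      rw [hf]
      simp

theorem dietzmann {H : Type} [Group H] [Finite H] (D : Set H) (hD : ∀ d ∈ D, ∀ x : H, x * d * x⁻¹ ∈ D) (m k : ℕ)
    (hm : ∀ d ∈ D, orderOf d ≤ m) (hk : D.ncard ≤ k) :
    Nat.card (Subgroup.closure D) ≤ (k + 1) ^ (k * m) := by
  classical
  have hfin : Finite (Fin (k * m) → Option D) := inferInstance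
  have h1 : ((Subgroup.closure D : Subgroup H) : Set H) ⊆ Set.range (wrdF D (k * m)) := by
    intro h hh
    obtain ⟨l, hl, hp, hlen⟩ := wrd_short D hD m k hm hk h hh
    obtain ⟨f, hf⟩ := wrd_cover D (k * m) l hl hlen
    exact ⟨f, by rw [hf, hp]⟩
  have h2 : Nat.card (Subgroup.closure D) ≤ Nat.card (Set.range (wrdF D (k * m))) :=
    Nat.card_mono (Set.finite_range _) h1
  have h3 : Nat.card (Set.range (wrdF D (k * m))) ≤ Nat.card (Fin (k * m) → Option D) :=
    Nat.card_le_card_of_surjective (fun f => (⟨wrdF D (k * m) f, f, rfl⟩ : Set.range _)) (by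
      rintro ⟨_, f, rfl⟩
      exact ⟨f, rfl⟩)
  have h4 : Nat.card (Fin (k * m) → Option D) = (D.ncard + 1) ^ (k * m) := by
    rw [Nat.card_fun, Nat.card_eq_fintype_card (α := Fin (k * m)), Fintype.card_fin]
    congr 1
    rw [Finite.card_option]
    rfl
  calc Nat.card (Subgroup.closure D) ≤ Nat.card (Fin (k * m) → Option D) := h2.trans h3
    _ = (D.ncard + 1) ^ (k * m) := h4
    _ ≤ (k + 1) ^ (k * m) := Nat.pow_le_pow_left (by omega) _

end Pool.Agent.H11.GQ
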